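import Pool.Agent.H29.UDP.TLat

/-!
# MP_47c37b: row CUB: the second moment of the sum over a cube of the torus
-/

set_option autoImplicit false

open MeasureTheory Filter Topology
open scoped ENNReal InnerProductSpace

namespace Pool.Agent.H35.UD

open Pool.Agent.H29.UDP
open Pool.Agent.H43.DPC (V)

noncomputable section

/-! ### Cubes -/

theorem card_filter_val {N : ℕ} [NeZero N] (a : ZMod N) (l : ℕ) (hl : l ≤ N) :
    (Finset.univ.filter fun t : ZMod N => (t - a).val < l).card = l := by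
  have h1 : (Finset.univ.filter fun t : ZMod N => (t - a).val < l) =
      (Finset.range l).image (fun i : ℕ => ((i : ZMod N) + a)) := by
    ext t
    simp only [Finset.mem_filter, Finset.mem_univ, true_and, Finset.mem_image, Finset.mem_range]
    constructor
    · intro h
      refine ⟨(t - a).val, h, ?_⟩
      rw [ZMod.natCast_zmod_val]
      ring
    · rintro ⟨i, hi, rfl⟩
      rw [add_sub_cancel_right, ZMod.val_natCast, Nat.mod_eq_of_lt (lt_of_lt_of_le hi hl)]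
      exact hi
  rw [h1, Finset.card_image_of_injOn, Finset.card_range]
  intro i hi j hj hij
  simp only [Finset.coe_range, Set.mem_Iio] at hi hj
  have h2 : ((i : ℕ) : ZMod N) = ((j : ℕ) : ZMod N) := add_right_cancel hij
  have h3 := congrArg ZMod.val h2
  rwa [ZMod.val_natCast, ZMod.val_natCast, Nat.mod_eq_of_lt (lt_of_lt_of_le hi hl),
    Nat.mod_eq_of_lt (lt_of_lt_of_le hj hl)] at h3

theorem cub_eq {d N : ℕ} [NeZero N] (y : Fin d → ZMod N) (l : ℕ) :
    cub y l = Fintype.piFinset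
      (fun j => Finset.univ.filter fun t : ZMod N => (t - y j).val < l) := by
  ext x
  simp [cub, Fintype.mem_piFinset]

theorem card_cub {d N : ℕ} [NeZero N] (y : Fin d → ZMod N) (l : ℕ) (hl : l ≤ N) :
    (cub y l).card = l ^ d := by
  rw [cub_eq, Fintype.card_piFinset]
  simp [card_filter_val _ l hl]

theorem cub_top {d N : ℕ} [NeZero N] (y : Fin d → ZMod N) : cub y N = Finset.univ := by
  ext x
  simp only [cub, Finset.mem_filter, Finset.mem_univ, true_and, iff_true]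
  intro j
  exact ZMod.val_lt _

theorem cub_mono {d N : ℕ} [NeZero N] (y : Fin d → ZMod N) {l l' : ℕ} (h : l ≤ l') :
    cub y l ⊆ cub y l' := by
  intro x hx
  simp only [cub, Finset.mem_filter, Finset.mem_univ, true_and] at hx ⊢
  intro j
  exact lt_of_lt_of_le (hx j) h

/-! ### The coupling -/

theorem norm_ipt_sq {d : ℕ} (δ : ℝ) (m : Fin d → ℤ) :
    ‖ipt δ m‖ ^ 2 = ∑ j, (δ * (m j : ℝ)) ^ 2 := by
  rw [EuclideanSpace.norm_sq_eq]
  simp [ipt, mul_pow]

theorem ipt_pos {d : ℕ} {δ : ℝ} (hδ : 0 < δ) {m : Fin d → ℤ} (hm : m ≠ 0) : 0 < ‖ipt δ m‖ := by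
  rcases (norm_nonneg (ipt δ m)).lt_or_eq with h | h
  · exact h
  · exfalso
    have h1 := norm_ipt_sq δ m
    rw [← h] at h1
    have h2 : ∀ j ∈ Finset.univ, (δ * (m j : ℝ)) ^ 2 = 0 := by
      apply (Finset.sum_eq_zero_iff_of_nonneg (fun j _ => sq_nonneg _)).1
      rw [← h1]; norm_num
    apply hm
    funext j
    have h3 := h2 j (Finset.mem_univ j)
    have h4 : δ * (m j : ℝ) = 0 := by simpa using h3
    rcases mul_eq_zero.1 h4 with h5 | h5
    · exact absurd h5 hδ.ne'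
    · exact_mod_cast h5

theorem ipt_le {d : ℕ} {δ : ℝ} (hδ : 0 < δ) {m : Fin d → ℤ} {l : ℕ}
    (hm : ∀ j, |m j| < (l : ℤ)) : ‖ipt δ m‖ ≤ δ * Real.sqrt d * l := by
  have h1 : ‖ipt δ m‖ ^ 2 ≤ (δ * Real.sqrt d * l) ^ 2 := by
    rw [norm_ipt_sq]
    calc ∑ j, (δ * (m j : ℝ)) ^ 2 ≤ ∑ _j : Fin d, (δ * l) ^ 2 := by
          apply Finset.sum_le_sum
          intro j _
          have h2 : |(m j : ℝ)| ≤ l := by
            have := (hm j).le
            exact_mod_cast this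
          have h3 : |δ * (m j : ℝ)| ≤ δ * l := by
            rw [abs_mul, abs_of_pos hδ]
            exact mul_le_mul_of_nonneg_left h2 hδ.le
          have h4 : (0 : ℝ) ≤ δ * l := mul_nonneg hδ.le (Nat.cast_nonneg l)
          exact sq_le_sq' (by linarith [(abs_le.1 h3).1]) (abs_le.1 h3).2
      _ = (δ * Real.sqrt d * l) ^ 2 := by
          rw [Finset.sum_const, Finset.card_univ, Fintype.card_fin, nsmul_eq_mul]
          have h5 : Real.sqrt d ^ 2 = d := Real.sq_sqrt (Nat.cast_nonneg d)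
          calc (d : ℝ) * (δ * l) ^ 2 = (Real.sqrt d ^ 2) * (δ * l) ^ 2 := by rw [h5]
            _ = (δ * Real.sqrt d * l) ^ 2 := by ring
  have h6 : 0 ≤ δ * Real.sqrt d * l :=
    mul_nonneg (mul_nonneg hδ.le (Real.sqrt_nonneg _)) (Nat.cast_nonneg l)
  exact le_of_sq_le_sq h1 h6

theorem pJ_pos (hPJS : T_PJS) {d N : ℕ} [NeZero N] {δ κ κ' s : ℝ} (hδ : 0 < δ) (hκ : 0 < κ)
    (hκ' : 0 ≤ κ') (hs : (d : ℝ) < 2 * s) (z : Fin d → ZMod N) (hz : z ≠ 0) :
    0 < pJ δ κ κ' s z := by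
  set m : Fin d → ℤ := fun j => ((z j).val : ℤ) with hm
  have hc : (fun j => ((m j : ℤ) : ZMod N)) = z := by
    funext j
    simp [hm]
  have hm0 : m ≠ 0 := by
    intro h0
    apply hz
    rw [← hc, h0]
    funext j
    simp
  have h1 := (hPJS d N δ κ κ' s hδ hκ.le hκ' hs).2.2.2 m hm0
  rw [hc] at h1
  refine lt_of_lt_of_le ?_ h1
  have h2 : 0 < κ * ‖ipt δ m‖ ^ (-(2 * s)) := mul_pos hκ (Real.rpow_pos_of_pos (ipt_pos hδ hm0) _)
  have h3 : (0 : ℝ) ≤ (if ‖ipt δ m‖ = δ then κ' else 0) := by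
    split_ifs
    · exact hκ'
    · exact le_rfl
  linarith

theorem pJ_cub (hPJS : T_PJS) {d N : ℕ} [NeZero N] {δ κ κ' s : ℝ} (hδ : 0 < δ) (hκ : 0 < κ)
    (hκ' : 0 ≤ κ') (hs : (d : ℝ) < 2 * s) (y : Fin d → ZMod N) (l : ℕ)
    (x z : Fin d → ZMod N) (hx : x ∈ cub y l) (hz : z ∈ cub y l) (hxz : x ≠ z) :
    κ * (δ * Real.sqrt d * l) ^ (-(2 * s)) ≤ pJ δ κ κ' s (x - z) := by
  simp only [cub, Finset.mem_filter, Finset.mem_univ, true_and] at hx hz
  set m : Fin d → ℤ := fun j => ((x j - y j).val : ℤ) - ((z j - y j).val : ℤ) with hm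
  have hc : (fun j => ((m j : ℤ) : ZMod N)) = x - z := by
    funext j
    simp [hm]
  have hm0 : m ≠ 0 := by
    intro h0
    apply hxz
    have : x - z = 0 := by
      rw [← hc, h0]
      funext j
      simp
    exact sub_eq_zero.1 this
  have hml : ∀ j, |m j| < (l : ℤ) := by
    intro j
    have h1 : ((x j - y j).val : ℤ) < l := by exact_mod_cast hx j
    have h2 : ((z j - y j).val : ℤ) < l := by exact_mod_cast hz j
    have h3 : (0 : ℤ) ≤ ((x j - y j).val : ℤ) := Int.natCast_nonneg _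
    have h4 : (0 : ℤ) ≤ ((z j - y j).val : ℤ) := Int.natCast_nonneg _
    rw [abs_lt, hm]
    constructor <;> linarith
  have h1 := (hPJS d N δ κ κ' s hδ hκ.le hκ' hs).2.2.2 m hm0
  rw [hc] at h1
  refine le_trans ?_ h1
  have h3 : (0 : ℝ) ≤ (if ‖ipt δ m‖ = δ then κ' else 0) := by
    split_ifs
    · exact hκ'
    · exact le_rfl
  have h4 : (δ * Real.sqrt d * l) ^ (-(2 * s)) ≤ ‖ipt δ m‖ ^ (-(2 * s)) := by
    apply Real.rpow_le_rpow_of_nonpos (ipt_pos hδ hm0) (ipt_le hδ hml)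
    have : (0 : ℝ) ≤ d := Nat.cast_nonneg d
    linarith
  have h5 := mul_le_mul_of_nonneg_left h4 hκ.le
  linarith

/-! ### Second moments of linear forms -/

theorem int_lin (hGLW : T_GLW) {ι : Type} [Fintype ι] (J : ι → ι → ℝ) (g b : ι → ℝ)
    (hg : ∀ x, 0 < g x) (c c' : ι → ℝ) :
    Integrable (fun φ : ι → ℝ => (∑ x, c x * φ x) * ∑ x, c' x * φ x) (glaw J g b) := by
  set S : (ι → ℝ) → ℝ := fun φ => ∑ x, φ x ^ 2 with hS
  set K : ℝ := ∑ x, c x ^ 2 with hK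
  set K' : ℝ := ∑ x, c' x ^ 2 with hK'
  have hK0 : 0 ≤ K := Finset.sum_nonneg fun x _ => sq_nonneg _
  have hK'0 : 0 ≤ K' := Finset.sum_nonneg fun x _ => sq_nonneg _
  refine (hGLW ι J g b hg).2.2.2.2 _ (1 + K + K') ?_ ?_
  · fun_prop
  · intro φ
    have hS0 : 0 ≤ S φ := Finset.sum_nonneg fun x _ => sq_nonneg _
    have h1 : (∑ x, c x * φ x) ^ 2 ≤ K * S φ := Finset.sum_mul_sq_le_sq_mul_sq _ _ _
    have h2 : (∑ x, c' x * φ x) ^ 2 ≤ K' * S φ := Finset.sum_mul_sq_le_sq_mul_sq _ _ _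
    have h3 : |(∑ x, c x * φ x) * ∑ x, c' x * φ x| ≤
        ((∑ x, c x * φ x) ^ 2 + (∑ x, c' x * φ x) ^ 2) / 2 := by
      rw [abs_le]
      constructor
      · nlinarith [sq_nonneg ((∑ x, c x * φ x) + ∑ x, c' x * φ x)]
      · nlinarith [sq_nonneg ((∑ x, c x * φ x) - ∑ x, c' x * φ x)]
    have h4 : (1 + K + K') * S φ + 1 ≤ Real.exp ((1 + K + K') * S φ) := Real.add_one_le_exp _
    have h5 : S φ ≤ (1 + K + K') * S φ := by nlinarith
    have h6 : S φ ≤ Real.exp ((1 + K + K') * S φ) := by linarith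
    have h7 : (1 + K + K') * S φ ≤ (1 + K + K') * Real.exp ((1 + K + K') * S φ) :=
      mul_le_mul_of_nonneg_left h6 (by linarith)
    have h8 : (K * S φ + K' * S φ) / 2 ≤ (1 + K + K') * S φ := by nlinarith
    linarith

/-- the second moment of a linear form -/
def sm {ι : Type} [Fintype ι] (μ : Measure (ι → ℝ)) (c : ι → ℝ) : ℝ :=
  ∫ φ : ι → ℝ, (∑ x, c x * φ x) ^ 2 ∂μ

theorem sm_nonneg {ι : Type} [Fintype ι] (μ : Measure (ι → ℝ)) (c : ι → ℝ) : 0 ≤ sm μ c :=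
  integral_nonneg fun _ => sq_nonneg _

theorem sm_add (hGLW : T_GLW) {ι : Type} [Fintype ι] (J : ι → ι → ℝ) (g b : ι → ℝ)
    (hg : ∀ x, 0 < g x) (c c' : ι → ℝ) :
    Real.sqrt (sm (glaw J g b) (fun x => c x + c' x)) ≤
      Real.sqrt (sm (glaw J g b) c) + Real.sqrt (sm (glaw J g b) c') := by
  set μ := glaw J g b with hμ
  set P : ℝ := ∫ φ : ι → ℝ, (∑ x, c x * φ x) * ∑ x, c' x * φ x ∂μ with hP
  have i1 := int_lin hGLW J g b hg c c
  have i2 := int_lin hGLW J g b hg c c'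
  have i3 := int_lin hGLW J g b hg c' c'
  have key : ∀ t : ℝ, ∫ φ : ι → ℝ, (t * (∑ x, c x * φ x) + ∑ x, c' x * φ x) ^ 2 ∂μ =
      sm μ c * (t * t) + (2 * P) * t + sm μ c' := by
    intro t
    have h1 : (fun φ : ι → ℝ => (t * (∑ x, c x * φ x) + ∑ x, c' x * φ x) ^ 2) = fun φ =>
        (t * t) * ((∑ x, c x * φ x) * ∑ x, c x * φ x) +
          ((2 * t) * ((∑ x, c x * φ x) * ∑ x, c' x * φ x) +
            (∑ x, c' x * φ x) * ∑ x, c' x * φ x) := by
      funext φ; ring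
    have h2 : sm μ c = ∫ φ : ι → ℝ, (∑ x, c x * φ x) * ∑ x, c x * φ x ∂μ := by
      unfold sm
      refine integral_congr_ae (Eventually.of_forall fun φ => ?_)
      show (∑ x, c x * φ x) ^ 2 = (∑ x, c x * φ x) * ∑ x, c x * φ x
      ring
    have h3 : sm μ c' = ∫ φ : ι → ℝ, (∑ x, c' x * φ x) * ∑ x, c' x * φ x ∂μ := by
      unfold sm
      refine integral_congr_ae (Eventually.of_forall fun φ => ?_)
      show (∑ x, c' x * φ x) ^ 2 = (∑ x, c' x * φ x) * ∑ x, c' x * φ x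
      ring
    have i4 : Integrable (fun φ : ι → ℝ => (2 * t) * ((∑ x, c x * φ x) * ∑ x, c' x * φ x) +
        (∑ x, c' x * φ x) * ∑ x, c' x * φ x) μ := (i2.const_mul _).add i3
    rw [h1, integral_add (i1.const_mul _) i4,
      integral_add (i2.const_mul _) i3, integral_const_mul, integral_const_mul, h2, h3, hP]
    ring
  have hd : discrim (sm μ c) (2 * P) (sm μ c') ≤ 0 := by
    apply discrim_le_zero
    intro t
    rw [← key t]
    exact integral_nonneg fun _ => sq_nonneg _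
  have hd' : P ^ 2 ≤ sm μ c * sm μ c' := by
    unfold discrim at hd
    nlinarith
  have hP' : P ≤ Real.sqrt (sm μ c) * Real.sqrt (sm μ c') := by
    rw [← Real.sqrt_mul (sm_nonneg μ c)]
    exact Real.le_sqrt_of_sq_le hd'
  have hsum : sm μ (fun x => c x + c' x) = sm μ c + 2 * P + sm μ c' := by
    have h1 := key 1
    have h2 : sm μ (fun x => c x + c' x) =
        ∫ φ : ι → ℝ, (1 * (∑ x, c x * φ x) + ∑ x, c' x * φ x) ^ 2 ∂μ := by
      unfold sm
      refine integral_congr_ae (Eventually.of_forall fun φ => ?_)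
      show (∑ x, (c x + c' x) * φ x) ^ 2 = (1 * (∑ x, c x * φ x) + ∑ x, c' x * φ x) ^ 2
      have : ∑ x, (c x + c' x) * φ x = (∑ x, c x * φ x) + ∑ x, c' x * φ x := by
        rw [← Finset.sum_add_distrib]
        exact Finset.sum_congr rfl fun x _ => by ring
      rw [this, one_mul]
    rw [h2, h1]; ring
  apply Real.sqrt_le_iff.2
  refine ⟨add_nonneg (Real.sqrt_nonneg _) (Real.sqrt_nonneg _), ?_⟩
  rw [hsum]
  have e1 := Real.sq_sqrt (sm_nonneg μ c)
  have e2 := Real.sq_sqrt (sm_nonneg μ c')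
  nlinarith

/-- the coefficients of the average over `Q` -/
def av {ι : Type} [DecidableEq ι] (Q : Finset ι) (x : ι) : ℝ := if x ∈ Q then 1 / (Q.card : ℝ) else 0

theorem av_sum {ι : Type} [Fintype ι] [DecidableEq ι] (Q : Finset ι) (φ : ι → ℝ) :
    ∑ x, av Q x * φ x = (∑ x ∈ Q, φ x) / Q.card := by
  unfold av
  rw [Finset.sum_div]
  have h1 : ∀ x, (if x ∈ Q then 1 / (Q.card : ℝ) else 0) * φ x =
      if x ∈ Q then φ x / Q.card else 0 := by
    intro x
    split_ifs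
    · ring
    · ring
  rw [Finset.sum_congr rfl fun x _ => h1 x, Finset.sum_ite_mem, Finset.univ_inter]

theorem av_step (hABV : T_ABV) {d N : ℕ} [NeZero N] (hN : Even N) {J : (Fin d → ZMod N) → ℝ}
    (hJ : TorJ d N J) (hJp : ∀ z, z ≠ 0 → 0 < J z) {g b : ℝ} (hg : 0 < g)
    (A B : Finset (Fin d → ZMod N)) (q : ℝ) (hA : A.Nonempty) (hB : B.Nonempty) (hq : 0 < q)
    (hAB : ∀ x ∈ A, ∀ y ∈ B, x ≠ y → q ≤ J (x - y)) :
    sm (tlaw J g b) (fun x => av A x - av B x) ≤ 2 / (q * A.card * B.card) := by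
  have h1 := hABV d N hN J hJ hJp g b hg A B q hA hB hq hAB
  refine le_trans (le_of_eq ?_) h1
  unfold sm
  refine integral_congr_ae (Eventually.of_forall fun φ => ?_)
  show (∑ x, (av A x - av B x) * φ x) ^ 2 =
    ((∑ x ∈ A, φ x) / A.card - (∑ x ∈ B, φ x) / B.card) ^ 2
  have h2 : ∑ x, (av A x - av B x) * φ x = ∑ x, av A x * φ x - ∑ x, av B x * φ x := by
    rw [← Finset.sum_sub_distrib]
    exact Finset.sum_congr rfl fun x _ => by ring
  rw [h2, av_sum, av_sum]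

/-- the downward induction over the dyadic cubes -/
theorem chain {N : ℕ} {E : ℕ → ℝ} {D β T : ℝ} (hD : 0 ≤ D) (hβ : 0 < β)
    (hT : E N = T)
    (hstep : ∀ l l' : ℕ, 1 ≤ l → l < l' → l' ≤ 2 * l → l' ≤ N →
      E l ≤ D * (l : ℝ) ^ (-β) + E l') :
    ∀ n l : ℕ, N ≤ l + n → 1 ≤ l → l ≤ N →
      E l ≤ D / (1 - (2 : ℝ) ^ (-β)) * (l : ℝ) ^ (-β) + T := by
  have hθ : (2 : ℝ) ^ (-β) < 1 := Real.rpow_lt_one_of_one_lt_of_neg (by norm_num) (by linarith)
  have hθ0 : 0 < (2 : ℝ) ^ (-β) := Real.rpow_pos_of_pos (by norm_num) _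
  set θ : ℝ := (2 : ℝ) ^ (-β) with hθd
  have h1θ : 0 < 1 - θ := by linarith
  have hM : D / (1 - θ) * (1 - θ) = D := div_mul_cancel₀ D h1θ.ne'
  have hM0 : 0 ≤ D / (1 - θ) := div_nonneg hD h1θ.le
  intro n
  induction n with
  | zero =>
    intro l h1 h2 h3
    have : l = N := by omega
    subst this
    rw [hT]
    have : 0 ≤ (l : ℝ) ^ (-β) := Real.rpow_nonneg (Nat.cast_nonneg l) _
    have := mul_nonneg hM0 this
    linarith
  | succ n ih =>
    intro l h1 h2 h3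
    have hl0 : 0 ≤ (l : ℝ) ^ (-β) := Real.rpow_nonneg (Nat.cast_nonneg l) _
    rcases Nat.lt_or_ge l N with hlt | hge
    · rcases Nat.lt_or_ge N (2 * l) with h4 | h4
      · have h5 := hstep l N h2 hlt h4.le le_rfl
        rw [hT] at h5
        have h6 : D * (l : ℝ) ^ (-β) ≤ D / (1 - θ) * (l : ℝ) ^ (-β) := by
          apply mul_le_mul_of_nonneg_right _ hl0
          rw [le_div_iff₀ h1θ]
          nlinarith
        linarith
      · have h5 := hstep l (2 * l) h2 (by omega) le_rfl h4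
        have h6 := ih (2 * l) (by omega) (by omega) h4
        have h7 : ((2 * l : ℕ) : ℝ) ^ (-β) = θ * (l : ℝ) ^ (-β) := by
          push_cast
          rw [Real.mul_rpow (by norm_num) (Nat.cast_nonneg l)]
        rw [h7] at h6
        have h8 : D * (l : ℝ) ^ (-β) + D / (1 - θ) * (θ * (l : ℝ) ^ (-β)) =
            D / (1 - θ) * (l : ℝ) ^ (-β) := by
          nth_rewrite 1 [← hM]
          ring
        linarith
    · have : l = N := by omega
      subst this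
      rw [hT]
      have := mul_nonneg hM0 hl0
      linarith

theorem pf_CUB (hGLW : T_GLW) (hABV : T_ABV) (hPJS : T_PJS) (hPJR : T_PJR) : T_CUB := by
  intro d α hα hαd
  have hd0 : (0 : ℝ) < d := by linarith
  have hd1 : 0 < d := by exact_mod_cast hd0
  set β : ℝ := ((d : ℝ) - α) / 2 with hβd
  have hβ : 0 < β := by rw [hβd]; linarith
  have hθ : (2 : ℝ) ^ (-β) < 1 := Real.rpow_lt_one_of_one_lt_of_neg (by norm_num) (by linarith)
  set θ : ℝ := (2 : ℝ) ^ (-β) with hθd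
  have h1θ : 0 < 1 - θ := by linarith
  set G : ℝ := 2 * (2 : ℝ) ^ α * Real.sqrt d ^ ((d : ℝ) + α) with hG
  have hsd : 0 < Real.sqrt d := Real.sqrt_pos.2 hd0
  have hG0 : 0 ≤ G := by
    rw [hG]
    exact mul_nonneg (mul_nonneg (by norm_num) (Real.rpow_nonneg (by norm_num) _))
      (Real.rpow_nonneg hsd.le _)
  refine ⟨2 * G / (1 - θ) ^ 2, by positivity, ?_⟩
  intro N _ δ κ κ' g b hN hδ hκ hκ' hg y l hl hlN
  set J : (Fin d → ZMod N) → ℝ := pJ δ κ κ' (((d : ℝ) + α) / 2) with hJd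
  have hs : (d : ℝ) < 2 * (((d : ℝ) + α) / 2) := by linarith
  have hs' : 2 * (((d : ℝ) + α) / 2) = (d : ℝ) + α := by ring
  have hTor : TorJ d N J := hPJR d N δ κ κ' _ hN hδ hκ.le hκ' hs
  have hJp : ∀ z, z ≠ 0 → 0 < J z := fun z hz => pJ_pos hPJS hδ hκ hκ' hs z hz
  set μ : Measure ((Fin d → ZMod N) → ℝ) := tlaw J g b with hμ
  have hμ' : tgibbs d N δ κ κ' (((d : ℝ) + α) / 2) g b = μ := rfl
  have hN0 : 0 < N := Nat.pos_of_ne_zero (NeZero.ne N)
  set E : ℕ → ℝ := fun l => Real.sqrt (sm μ (av (cub y l))) with hE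
  set D : ℝ := Real.sqrt (G * δ ^ ((d : ℝ) + α) / κ) with hD
  have hδp : 0 < δ ^ ((d : ℝ) + α) := Real.rpow_pos_of_pos hδ _
  have hD2 : D ^ 2 = G * δ ^ ((d : ℝ) + α) / κ := Real.sq_sqrt (by positivity)
  have hD0 : 0 ≤ D := Real.sqrt_nonneg _
  have hstep : ∀ l l' : ℕ, 1 ≤ l → l < l' → l' ≤ 2 * l → l' ≤ N →
      E l ≤ D * (l : ℝ) ^ (-β) + E l' := by
    intro l l' h1 h2 h3 h4
    have hl0 : (0 : ℝ) < l := by exact_mod_cast h1
    have hl'0 : (0 : ℝ) < l' := by exact_mod_cast (by omega : 0 < l')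
    set q : ℝ := κ * (δ * Real.sqrt d * l') ^ (-(2 * (((d : ℝ) + α) / 2))) with hq
    have hbase : 0 < δ * Real.sqrt d * l' := by positivity
    have hq0 : 0 < q := mul_pos hκ (Real.rpow_pos_of_pos hbase _)
    have hneA : (cub y l).Nonempty := by
      rw [← Finset.card_pos, card_cub y l (by omega)]
      exact pow_pos (by omega) d
    have hneB : (cub y l').Nonempty := by
      rw [← Finset.card_pos, card_cub y l' h4]
      exact pow_pos (by omega) d
    have hst := av_step hABV hN hTor hJp (b := b) hg (cub y l) (cub y l') q hneA hneB hq0 (by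
      intro x hx z hz hxz
      exact pJ_cub hPJS hδ hκ hκ' hs y l' x z (cub_mono y h2.le hx) hz hxz)
    rw [card_cub y l (by omega), card_cub y l' h4] at hst
    have hbd : 2 / (q * ((l ^ d : ℕ) : ℝ) * ((l' ^ d : ℕ) : ℝ)) ≤ (D * (l : ℝ) ^ (-β)) ^ 2 := by
      rw [mul_pow, hD2]
      have e1 : ((l : ℝ) ^ (-β)) ^ 2 = (l : ℝ) ^ (α - (d : ℝ)) := by
        rw [← Real.rpow_natCast, ← Real.rpow_mul hl0.le]
        congr 1
        rw [hβd]; push_cast; ring
      have e2 : q = κ * (δ ^ ((d : ℝ) + α) * Real.sqrt d ^ ((d : ℝ) + α) *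
          (l' : ℝ) ^ ((d : ℝ) + α))⁻¹ := by
        rw [hq, hs', Real.rpow_neg hbase.le, Real.mul_rpow (by positivity) hl'0.le,
          Real.mul_rpow hδ.le hsd.le]
      have e3 : (l' : ℝ) ^ ((d : ℝ) + α) = (l' : ℝ) ^ d * (l' : ℝ) ^ α := by
        rw [Real.rpow_add hl'0, Real.rpow_natCast]
      have e4 : (l : ℝ) ^ (α - (d : ℝ)) = (l : ℝ) ^ α / (l : ℝ) ^ d := by
        rw [Real.rpow_sub hl0, Real.rpow_natCast]
      have e5 : (l' : ℝ) ^ α ≤ (2 : ℝ) ^ α * (l : ℝ) ^ α := by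
        rw [← Real.mul_rpow (by norm_num) hl0.le]
        apply Real.rpow_le_rpow hl'0.le _ hα.le
        exact_mod_cast h3
      have hsdp : 0 < Real.sqrt d ^ ((d : ℝ) + α) := Real.rpow_pos_of_pos hsd _
      have hlp : 0 < (l : ℝ) ^ d := pow_pos hl0 d
      have hl'p : 0 < (l' : ℝ) ^ d := pow_pos hl'0 d
      have e6 : 2 / (q * ((l ^ d : ℕ) : ℝ) * ((l' ^ d : ℕ) : ℝ)) =
          (2 * Real.sqrt d ^ ((d : ℝ) + α) * (l' : ℝ) ^ α) * δ ^ ((d : ℝ) + α) / κ /
            (l : ℝ) ^ d := by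
        rw [e2, e3]
        push_cast
        have : (l' : ℝ) ^ α ≠ 0 := (Real.rpow_pos_of_pos hl'0 _).ne'
        field_simp
      have e7 : G * δ ^ ((d : ℝ) + α) / κ * ((l : ℝ) ^ α / (l : ℝ) ^ d) =
          (2 * Real.sqrt d ^ ((d : ℝ) + α) * ((2 : ℝ) ^ α * (l : ℝ) ^ α)) *
            δ ^ ((d : ℝ) + α) / κ / (l : ℝ) ^ d := by
        rw [hG]; ring
      rw [e1, e4, e6, e7]
      apply div_le_div_of_nonneg_right _ hlp.le
      apply div_le_div_of_nonneg_right _ hκ.le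
      apply mul_le_mul_of_nonneg_right _ hδp.le
      exact mul_le_mul_of_nonneg_left e5 (by positivity)
    have hsq : Real.sqrt (sm μ (fun x => av (cub y l) x - av (cub y l') x)) ≤
        D * (l : ℝ) ^ (-β) := by
      apply Real.sqrt_le_iff.2
      exact ⟨mul_nonneg hD0 (Real.rpow_nonneg hl0.le _), le_trans hst hbd⟩
    have htri := sm_add hGLW (fun x z => J (x - z)) (fun _ : Fin d → ZMod N => g) (fun _ => b)
      (fun _ => hg) (fun x => av (cub y l) x - av (cub y l') x) (av (cub y l'))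
    have hfun : (fun x => (av (cub y l) x - av (cub y l') x) + av (cub y l') x) =
        av (cub y l) := by
      funext x; ring
    rw [hfun] at htri
    exact le_trans htri (by
      show Real.sqrt (sm μ (fun x => av (cub y l) x - av (cub y l') x)) +
        Real.sqrt (sm μ (av (cub y l'))) ≤ D * (l : ℝ) ^ (-β) + E l'
      simp only [hE]
      linarith)
  have hmain := chain (E := E) (T := E N) hD0 hβ rfl hstep N l (by omega) hl hlN
  have hlr : (0 : ℝ) < l := by exact_mod_cast hl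
  have hEN : E N ^ 2 = tlro d N δ κ κ' (((d : ℝ) + α) / 2) g b := by
    show Real.sqrt (sm μ (av (cub y N))) ^ 2 = _
    rw [Real.sq_sqrt (sm_nonneg _ _)]
    unfold sm tlro
    rw [hμ']
    refine integral_congr_ae (Eventually.of_forall fun φ => ?_)
    show (∑ x, av (cub y N) x * φ x) ^ 2 = ((∑ x, φ x) / (N : ℝ) ^ d) ^ 2
    rw [av_sum, card_cub y N le_rfl, cub_top]
    push_cast
    rfl
  have hEl : ∫ φ : (Fin d → ZMod N) → ℝ, (∑ x ∈ cub y l, φ x) ^ 2 ∂μ =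
      (l : ℝ) ^ (2 * d) * E l ^ 2 := by
    have h1 : E l ^ 2 = sm μ (av (cub y l)) := Real.sq_sqrt (sm_nonneg _ _)
    rw [h1]
    unfold sm
    rw [← integral_const_mul]
    refine integral_congr_ae (Eventually.of_forall fun φ => ?_)
    show (∑ x ∈ cub y l, φ x) ^ 2 = (l : ℝ) ^ (2 * d) * (∑ x, av (cub y l) x * φ x) ^ 2
    rw [av_sum, card_cub y l hlN]
    have : (l : ℝ) ^ d ≠ 0 := (pow_pos hlr d).ne'
    push_cast
    field_simp
    ring
  rw [hμ', hEl, ← hEN]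
  have hEl0 : 0 ≤ E l := Real.sqrt_nonneg _
  have hEN0 : 0 ≤ E N := Real.sqrt_nonneg _
  have hM0 : 0 ≤ D / (1 - θ) * (l : ℝ) ^ (-β) :=
    mul_nonneg (div_nonneg hD0 h1θ.le) (Real.rpow_nonneg hlr.le _)
  have h1 : E l ^ 2 ≤ 2 * (D / (1 - θ) * (l : ℝ) ^ (-β)) ^ 2 + 2 * E N ^ 2 := by
    have h2 : E l ^ 2 ≤ (D / (1 - θ) * (l : ℝ) ^ (-β) + E N) ^ 2 :=
      pow_le_pow_left₀ hEl0 hmain 2
    nlinarith [sq_nonneg (D / (1 - θ) * (l : ℝ) ^ (-β) - E N)]
  have hl2 : (0 : ℝ) ≤ (l : ℝ) ^ (2 * d) := by positivity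
  have h3 := mul_le_mul_of_nonneg_left h1 hl2
  have h4 : (l : ℝ) ^ (2 * d) * (2 * (D / (1 - θ) * (l : ℝ) ^ (-β)) ^ 2) =
      2 * G / (1 - θ) ^ 2 / κ * (δ * l) ^ ((d : ℝ) + α) := by
    have e1 : ((l : ℝ) ^ (-β)) ^ 2 = (l : ℝ) ^ (α - (d : ℝ)) := by
      rw [← Real.rpow_natCast, ← Real.rpow_mul hlr.le]
      congr 1
      rw [hβd]; push_cast; ring
    have e2 : (l : ℝ) ^ (2 * d) * (l : ℝ) ^ (α - (d : ℝ)) = (l : ℝ) ^ ((d : ℝ) + α) := by
      rw [← Real.rpow_natCast, ← Real.rpow_add hlr]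
      congr 1
      push_cast; ring
    rw [Real.mul_rpow hδ.le hlr.le, ← e2, mul_pow, div_pow, e1, hD2]
    field_simp
  calc (l : ℝ) ^ (2 * d) * E l ^ 2 ≤
      (l : ℝ) ^ (2 * d) * (2 * (D / (1 - θ) * (l : ℝ) ^ (-β)) ^ 2 + 2 * E N ^ 2) := h3
    _ = (l : ℝ) ^ (2 * d) * (2 * (D / (1 - θ) * (l : ℝ) ^ (-β)) ^ 2) +
        2 * (l : ℝ) ^ (2 * d) * E N ^ 2 := by ring
    _ = _ := by rw [h4]

end

end Pool.Agent.H35.UD
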